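import Pool.Agent.W345.VO.Stm

/-!
Homogeneity and truncation of the concrete operators.
-/

namespace Pool.Agent.W681.VO

open MvPolynomial Pool.Agent.W345.VO

/-- the weight of a monomial -/
noncomputable def wg (m : ℕ →₀ ℕ) : ℕ := Finsupp.weight (fun i : ℕ => i + 1) m

theorem wg_add (m n : ℕ →₀ ℕ) : wg (m + n) = wg m + wg n := by
  unfold wg; rw [map_add]

theorem wg_zero : wg 0 = 0 := by
  unfold wg; rw [map_zero]

theorem wg_single (i k : ℕ) : wg (Finsupp.single i k) = k * (i + 1) := by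
  unfold wg; rw [Finsupp.weight_single]; rfl

/-- homogeneous polynomials of degree `d` -/
noncomputable def H (d : ℤ) : Submodule ℂ PP where
  carrier := {p | ∀ m, coeff m p ≠ 0 → ((wg m : ℕ) : ℤ) = d}
  add_mem' := by
    intro a b ha hb m hm
    rw [coeff_add] at hm
    by_cases h : coeff m a = 0
    · rw [h, zero_add] at hm
      exact hb m hm
    · exact ha m h
  zero_mem' := fun m hm => absurd (coeff_zero m) hm
  smul_mem' := by
    intro c a ha m hm
    rw [coeff_smul] at hm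
    exact ha m (fun h => hm (by rw [h, smul_zero]))

theorem mem_H {d : ℤ} {p : PP} : p ∈ H d ↔ ∀ m, coeff m p ≠ 0 → ((wg m : ℕ) : ℤ) = d := Iff.rfl

theorem hom_iff (d : ℤ) (p : PP) : Pool.Agent.W345.VO.hom d p ↔ p ∈ H d := by
  unfold Pool.Agent.W345.VO.hom
  constructor
  · rintro (⟨hd, h⟩ | h)
    · intro m hm
      have h1 := h hm
      have h2 : wg m = d.toNat := h1
      rw [h2]
      omega
    · rw [h]; exact (H d).zero_mem
  · intro h
    by_cases hp : p = 0
    · exact Or.inr hp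
    · left
      obtain ⟨m, hm⟩ : ∃ m, coeff m p ≠ 0 := by
        by_contra hc
        push Not at hc
        exact hp (MvPolynomial.ext _ _ (fun m => by rw [hc m, coeff_zero]))
      have h1 := h m hm
      refine ⟨by omega, fun n hn => ?_⟩
      have h2 := h n hn
      show wg n = d.toNat
      omega

theorem mono_mem (m : ℕ →₀ ℕ) (c : ℂ) (d : ℤ) (h : c ≠ 0 → ((wg m : ℕ) : ℤ) = d) :
    (monomial m c : PP) ∈ H d := by
  intro n hn
  rw [coeff_monomial] at hn
  by_cases h1 : m = n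
  · rw [if_pos h1] at hn
    rw [← h1]
    exact h hn
  · rw [if_neg h1] at hn
    exact absurd rfl hn

theorem mul_mem {p q : PP} {d e f : ℤ} (hp : p ∈ H d) (hq : q ∈ H e) (hf : d + e = f) :
    p * q ∈ H f := by
  intro m hm
  rw [coeff_mul] at hm
  obtain ⟨x, hx, hx'⟩ := Finset.exists_ne_zero_of_sum_ne_zero hm
  have h1 := hp _ (left_ne_zero_of_mul hx')
  have h2 := hq _ (right_ne_zero_of_mul hx')
  rw [Finset.HasAntidiagonal.mem_antidiagonal] at hx
  rw [← hx, wg_add, Nat.cast_add, h1, h2, hf]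

theorem X_mem (i : ℕ) : (X i : PP) ∈ H ((i : ℤ) + 1) := by
  refine mono_mem _ _ _ (fun _ => ?_)
  rw [wg_single]; push_cast; ring

theorem C_mem (c : ℂ) : (C c : PP) ∈ H 0 := by
  refine mono_mem _ _ _ (fun _ => ?_)
  rw [wg_zero]; rfl

theorem one_mem : (1 : PP) ∈ H 0 := by
  have h := C_mem 1
  rwa [C_1] at h

/-- to prove that a linear map respects degrees it is enough to look at monomials -/
theorem lin_mem {M : Type} [AddCommGroup M] [Module ℂ M] (f : PP →ₗ[ℂ] M) (d : ℤ)
    (S : Submodule ℂ M) (h : ∀ m c, ((wg m : ℕ) : ℤ) = d → f (monomial m c) ∈ S) {p : PP}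
    (hp : p ∈ H d) : f p ∈ S := by
  rw [p.as_sum, map_sum]
  refine Submodule.sum_mem _ (fun m hm => ?_)
  exact h _ _ (hp m (mem_support_iff.mp hm))

theorem pderiv_mem (i : ℕ) {d : ℤ} {p : PP} (hp : p ∈ H d) :
    pderiv i p ∈ H (d - ((i : ℤ) + 1)) := by
  refine lin_mem (pderiv i).toLinearMap d _ (fun m c hm => ?_) hp
  show pderiv i (monomial m c) ∈ _
  rw [pderiv_monomial]
  refine mono_mem _ _ _ (fun hc => ?_)
  have h1 : m i ≠ 0 := fun h => hc (by rw [h]; simp)
  have h2 : m = (m - Finsupp.single i 1) + Finsupp.single i 1 := by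
    ext j
    by_cases hj : i = j
    · subst hj
      simp
      omega
    · simp [Finsupp.single_eq_of_ne (Ne.symm hj)]
  have h3 : wg m = wg (m - Finsupp.single i 1) + (i + 1) := by
    conv_lhs => rw [h2]
    rw [wg_add, wg_single, one_mul]
  rw [← hm, h3]
  push_cast
  ring

theorem DD_mem {d : ℤ} {p : PP} (hp : p ∈ H d) : DD p ∈ H (d + 1) := by
  refine lin_mem DD.toLinearMap d _ (fun m c hm => ?_) hp
  show DD (monomial m c) ∈ _
  unfold DD
  rw [mkDerivation_monomial]
  refine Submodule.smul_mem _ _ ?_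
  unfold Finsupp.sum
  refine Submodule.sum_mem _ (fun i hi => ?_)
  have h1 : m i ≠ 0 := Finsupp.mem_support_iff.mp hi
  have h2 : m = (m - Finsupp.single i 1) + Finsupp.single i 1 := by
    ext j
    by_cases hj : i = j
    · subst hj
      simp
      omega
    · simp [Finsupp.single_eq_of_ne (Ne.symm hj)]
  have h3 : wg m = wg (m - Finsupp.single i 1) + (i + 1) := by
    conv_lhs => rw [h2]
    rw [wg_add, wg_single, one_mul]
  show (monomial (m - Finsupp.single i 1) ((m i : ℕ) : ℂ) : PP) •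
    (C ((i : ℂ) + 1) * X (i + 1) : PP) ∈ _
  rw [smul_eq_mul]
  have h4 : (monomial (m - Finsupp.single i 1) ((m i : ℕ) : ℂ) : PP) ∈ H (d - ((i : ℤ) + 1)) := by
    refine mono_mem _ _ _ (fun _ => ?_)
    rw [← hm, h3]
    push_cast
    ring
  have h5 : (C ((i : ℂ) + 1) * X (i + 1) : PP) ∈ H ((i : ℤ) + 2) := by
    refine mul_mem (C_mem _) (X_mem _) ?_
    push_cast
    ring
  exact mul_mem h4 h5 (by ring)

theorem ss_mem (ε : ℂ) (j : ℕ) : ss ε j ∈ H (j : ℤ) := by
  induction j using Nat.strong_induction_on with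
  | _ j ih =>
    cases j with
    | zero =>
      rw [ss_zero]
      exact one_mem
    | succ j =>
      rw [ss_succ]
      refine mul_mem (C_mem _) (e := ((j + 1 : ℕ) : ℤ)) ?_ (by ring)
      refine Submodule.sum_mem _ (fun i hi => ?_)
      have hi' := Finset.mem_range.mp hi
      refine mul_mem (X_mem i) (ih (j - i) (by omega)) ?_
      omega

theorem sz_mem (ε : ℂ) (j : ℤ) : sz ε j ∈ H j := by
  unfold sz
  split_ifs with h
  · have h1 := ss_mem ε j.toNat
    have h2 : ((j.toNat : ℕ) : ℤ) = j := by omega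
    rwa [h2] at h1
  · exact (H j).zero_mem

/-- polynomials in `t` with homogeneous coefficients -/
noncomputable def T (d : ℤ) : Submodule ℂ (Polynomial PP) where
  carrier := {q | ∀ j : ℕ, q.coeff j ∈ H (d - j)}
  add_mem' := by
    intro a b ha hb j
    rw [Polynomial.coeff_add]
    exact (H _).add_mem (ha j) (hb j)
  zero_mem' := fun j => by
    rw [Polynomial.coeff_zero]
    exact (H _).zero_mem
  smul_mem' := by
    intro c a ha j
    rw [Polynomial.coeff_smul]
    exact (H _).smul_mem _ (ha j)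

theorem Tmul_mem {p q : Polynomial PP} {d e f : ℤ} (hp : p ∈ T d) (hq : q ∈ T e)
    (hf : d + e = f) : p * q ∈ T f := by
  intro j
  rw [Polynomial.coeff_mul]
  refine Submodule.sum_mem _ (fun x hx => ?_)
  rw [Finset.HasAntidiagonal.mem_antidiagonal] at hx
  refine mul_mem (hp x.1) (hq x.2) ?_
  rw [← hf, ← hx]
  push_cast
  ring

theorem TC_mem {d : ℤ} {p : PP} (hp : p ∈ H d) : Polynomial.C p ∈ T d := by
  intro j
  rw [Polynomial.coeff_C]
  split_ifs with h
  · rw [h]; simpa using hp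
  · exact (H _).zero_mem

theorem TX_mem (k : ℕ) : (Polynomial.X ^ k : Polynomial PP) ∈ T (k : ℤ) := by
  intro j
  rw [Polynomial.coeff_X_pow]
  split_ifs with h
  · rw [h, sub_self]; exact one_mem
  · exact (H _).zero_mem

theorem tau_X (ε : ℂ) (i : ℕ) : tau ε (X i) ∈ T ((i : ℤ) + 1) := by
  unfold tau
  rw [aeval_X]
  refine Submodule.sub_mem _ (TC_mem (X_mem i)) ?_
  refine Tmul_mem (TC_mem (C_mem _)) (TX_mem _) ?_
  push_cast
  ring

theorem tau_C (ε : ℂ) (c : ℂ) : tau ε (C c) ∈ T 0 := by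
  have h : tau ε (C c) = Polynomial.C (C c) := by
    unfold tau
    rw [aeval_C]
    rfl
  rw [h]
  exact TC_mem (C_mem c)

theorem tau_mono (ε : ℂ) (m : ℕ →₀ ℕ) : ∀ c : ℂ, tau ε (monomial m c) ∈ T ((wg m : ℕ) : ℤ) := by
  induction m using Finsupp.induction_linear with
  | zero =>
    intro c
    rw [wg_zero]
    exact tau_C ε c
  | add m n hm hn =>
    intro c
    have h : (monomial (m + n) c : PP) = monomial m c * monomial n 1 := by
      rw [monomial_mul, mul_one]
    rw [h, map_mul, wg_add]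
    exact Tmul_mem (hm c) (hn 1) (by push_cast; ring)
  | single i k =>
    intro c
    have h : (monomial (Finsupp.single i k) c : PP) = C c * X i ^ k := by
      rw [C_mul_X_pow_eq_monomial]
    rw [h, map_mul, map_pow, wg_single]
    refine Tmul_mem (tau_C ε c) (e := ((k * (i + 1) : ℕ) : ℤ)) ?_ (by ring)
    induction k with
    | zero =>
      rw [pow_zero]
      have h1 := tau_C ε 1
      rw [C_1, map_one] at h1
      simpa using h1
    | succ k ih =>
      rw [pow_succ]
      have ih' := ih (by rw [C_mul_X_pow_eq_monomial])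
      exact Tmul_mem ih' (tau_X ε i) (by push_cast; ring)

theorem tau_mem (ε : ℂ) {d : ℤ} {p : PP} (hp : p ∈ H d) : tau ε p ∈ T d := by
  refine lin_mem (tau ε).toLinearMap d _ (fun m c hm => ?_) hp
  rw [← hm]
  exact tau_mono ε m c

theorem phi_apply (ε : ℂ) (m : ℤ) (q : Polynomial PP) :
    phi ε m q = q.sum (fun j c => c * sz ε ((j : ℤ) + m)) := by
  unfold phi
  rw [Polynomial.lsum_apply]
  rfl

theorem phi_mem (ε : ℂ) (m : ℤ) {d : ℤ} {q : Polynomial PP} (hq : q ∈ T d) :
    phi ε m q ∈ H (d + m) := by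
  rw [phi_apply]
  unfold Polynomial.sum
  refine Submodule.sum_mem _ (fun j _ => ?_)
  exact mul_mem (hq j) (sz_mem ε _) (by ring)

theorem phi_zero (ε : ℂ) (m : ℤ) (q : Polynomial PP) (h : (q.natDegree : ℤ) + m < 0) :
    phi ε m q = 0 := by
  rw [phi_apply]
  unfold Polynomial.sum
  refine Finset.sum_eq_zero (fun j hj => ?_)
  have h1 : j ≤ q.natDegree := Polynomial.le_natDegree_of_mem_supp j hj
  have h2 : sz ε ((j : ℤ) + m) = 0 := by
    unfold sz
    rw [if_neg (by omega)]
  show q.coeff j * sz ε ((j : ℤ) + m) = 0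
  rw [h2, mul_zero]

theorem homs : S_HOM := by
  refine ⟨fun k => ⟨1, rfl, (hom_iff _ _).2 one_mem⟩, ?_, ?_, ?_⟩
  · rintro k d m v ⟨p, rfl, hp⟩
    rw [hom_iff] at hp
    rcases lt_trichotomy m 0 with hm | hm | hm
    · obtain ⟨l, hl⟩ : ∃ l : ℕ, m = -(l : ℤ) - 1 := ⟨(-m - 1).toNat, by omega⟩
      subst hl
      rw [hOp_neg]
      refine ⟨_, rfl, (hom_iff _ _).2 (mul_mem (X_mem l) hp (by ring))⟩
    · subst hm
      rw [hOp_zero]
      refine ⟨_, rfl, (hom_iff _ _).2 ?_⟩
      rw [sub_zero]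
      exact Submodule.smul_mem _ _ hp
    · obtain ⟨l, hl⟩ : ∃ l : ℕ, m = (l : ℤ) + 1 := ⟨(m - 1).toNat, by omega⟩
      subst hl
      rw [hOp_pos]
      exact ⟨_, rfl, (hom_iff _ _).2 (Submodule.smul_mem _ _ (pderiv_mem l hp))⟩
  · rintro ε k d n v ⟨p, rfl, hp⟩
    rw [hom_iff] at hp
    rw [EE_single]
    refine ⟨_, rfl, (hom_iff _ _).2 ?_⟩
    have h := phi_mem (ε : ℂ) (-n - 1 - 2 * ε * k) (tau_mem (ε : ℂ) hp)
    have h2 : d + (-n - 1 - 2 * ε * k) = d - n - 1 - 2 * ε * k := by ring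
    rwa [h2] at h
  · rintro k d v ⟨p, rfl, hp⟩
    rw [hom_iff] at hp
    rw [TT_single]
    refine ⟨_, rfl, (hom_iff _ _).2 ?_⟩
    refine Submodule.add_mem _ (DD_mem hp) (Submodule.smul_mem _ _ ?_)
    exact mul_mem (X_mem 0) hp (by push_cast; ring)

/-- a family of operators is a field if it is one on all `single k p` -/
theorem FL_of (a : ℤ → Module.End ℂ VV)
    (h : ∀ k p, ∃ N : ℤ, ∀ n, N ≤ n → a n (Finsupp.single k p) = 0) : a ∈ FL VV := by
  intro v
  induction v using Finsupp.induction_linear with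
  | zero => exact ⟨0, fun n _ => map_zero _⟩
  | add v w hv hw =>
    obtain ⟨N, hN⟩ := hv
    obtain ⟨N', hN'⟩ := hw
    refine ⟨max N N', fun n hn => ?_⟩
    rw [map_add, hN n (le_trans (le_max_left _ _) hn), hN' n (le_trans (le_max_right _ _) hn),
      add_zero]
  | single k p => exact h k p

theorem flm : S_FLM := by
  refine ⟨fun ε => FL_of _ (fun k p => ?_), FL_of _ (fun k p => ?_)⟩
  · refine ⟨((tau (ε : ℂ) p).natDegree : ℤ) - 2 * ε * k, fun n hn => ?_⟩
    rw [EE_single, phi_zero, Finsupp.single_zero]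
    have h2 : ((tau (ε : ℂ) p).natDegree : ℤ) + (-n - 1 - 2 * ε * k) =
      (((tau (ε : ℂ) p).natDegree : ℤ) - 2 * ε * k) - n - 1 := by ring
    rw [h2]
    omega
  · refine ⟨((p.vars.sup id : ℕ) : ℤ) + 2, fun n hn => ?_⟩
    obtain ⟨l, hl⟩ : ∃ l : ℕ, n = (l : ℤ) + 1 := ⟨(n - 1).toNat, by omega⟩
    subst hl
    rw [hOp_pos, pderiv_eq_zero_of_notMem_vars, smul_zero, Finsupp.single_zero]
    intro hm
    have h1 : id l ≤ p.vars.sup id := Finset.le_sup hm
    have h2 : l ≤ p.vars.sup id := h1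
    omega

end Pool.Agent.W681.VO
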